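import Pool.Agent.Helper45K9.PP.Bridge

/-!
# Powerful and strong avoidance of 132

The ratio `|PAv_n(132)| / |SAv_{n-1}(132)|` is smaller than `15/16` for infinitely many `n`,
hence it does not tend to `1`: the conjectured asymptotic equivalences are false.
-/

set_option autoImplicit false

namespace Pool.Agent.Results.MP_d9ab47_co.PowerfulVersusStrong

open Equiv Filter

/-- `π` contains the pattern `τ`: some subsequence of length `k` of `π` (positions
`f 0 < f 1 < ... < f (k-1)`) is order-isomorphic to `τ`. -/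
def Contains {n k : ℕ} (π : Perm (Fin n)) (τ : Perm (Fin k)) : Prop :=
  ∃ f : Fin k → Fin n, StrictMono f ∧ ∀ a b : Fin k, π (f a) < π (f b) ↔ τ a < τ b

open Classical in
/-- `Omega T n τ` is the set of the permutations `π` of `n` letters such that `π ^ t` avoids `τ`
for every `t ∈ T`. -/
noncomputable def Omega (T : Set ℕ) (n : ℕ) {k : ℕ} (τ : Perm (Fin k)) : Finset (Perm (Fin n)) :=
  Finset.univ.filter (fun π => ∀ t ∈ T, ¬ Contains (π ^ t) τ)

/-- The permutations which strongly avoid `τ`. -/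
noncomputable def SAv (n : ℕ) {k : ℕ} (τ : Perm (Fin k)) : Finset (Perm (Fin n)) :=
  Omega {1, 2} n τ

/-- The permutations which powerfully avoid `τ`. -/
noncomputable def PAv (n : ℕ) {k : ℕ} (τ : Perm (Fin k)) : Finset (Perm (Fin n)) :=
  Omega {t | 1 ≤ t} n τ

/-- The pattern 132, i.e. `0 ↦ 0`, `1 ↦ 2`, `2 ↦ 1` on `Fin 3`. -/
def p132 : Perm (Fin 3) := Equiv.swap 1 2

theorem mem_Omega {T : Set ℕ} {n k : ℕ} {τ : Perm (Fin k)} {π : Perm (Fin n)} :
    π ∈ Omega T n τ ↔ ∀ t ∈ T, ¬ Contains (π ^ t) τ := by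
  simp [Omega]

theorem aux (n₀ : ℕ)
    (h : ∀ n, n₀ ≤ n → (15 / 16 : ℝ) * (SAv n p132).card ≤ (PAv (n + 1) p132).card) : False := by
  refine Pool.Agent.Helper45K9.PP.main n₀ (fun n hn => ?_)
  have h1 : (Pool.Agent.Helper45K9.PP.sset n).card ≤ (SAv n p132).card := by
    apply Pool.Agent.Helper45K9.PP.card_sset_le
    intro π a1 a2
    unfold SAv
    rw [mem_Omega]
    intro t ht
    rcases ht with rfl | ht
    · rw [pow_one]; exact a1
    · rw [Set.mem_singleton_iff] at ht
      subst ht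
      rw [pow_two]; exact a2
  have h2 : (PAv (n + 1) p132).card ≤ (Pool.Agent.Helper45K9.PP.qset (n + 1)).card := by
    apply Pool.Agent.Helper45K9.PP.card_le_qset
    intro π hπ t ht
    unfold PAv at hπ
    rw [mem_Omega] at hπ
    exact hπ t ht
  have h3 : ((Pool.Agent.Helper45K9.PP.sset n).card : ℝ) ≤ (SAv n p132).card := by
    exact_mod_cast h1
  have h4 : ((PAv (n + 1) p132).card : ℝ) ≤ (Pool.Agent.Helper45K9.PP.qset (n + 1)).card := by
    exact_mod_cast h2
  have := h n hn
  linarith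

/-- For infinitely many `n` we have `|PAv_n(132)| / |SAv_{n-1}(132)| < 15/16`. In particular
`|PAv_n(132)|` and `|SAv_{n-1}(132)|` are not asymptotically equivalent. -/
theorem result :
    (∃ᶠ n : ℕ in atTop, ((PAv n p132).card : ℝ) / ((SAv (n - 1) p132).card : ℝ) < 15 / 16) ∧
    ¬ Tendsto (fun n : ℕ => ((PAv n p132).card : ℝ) / ((SAv (n - 1) p132).card : ℝ))
      atTop (nhds 1) := by
  have key : ∃ᶠ n : ℕ in atTop,
      ((PAv n p132).card : ℝ) / ((SAv (n - 1) p132).card : ℝ) < 15 / 16 := by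
    intro hev
    rw [eventually_atTop] at hev
    obtain ⟨n₀, h⟩ := hev
    refine aux n₀ (fun n hn => ?_)
    have h1 := h (n + 1) (by omega)
    rw [not_lt, Nat.add_sub_cancel] at h1
    rcases Nat.eq_zero_or_pos (SAv n p132).card with h0 | h0
    · rw [h0]
      simp
    · rwa [le_div_iff₀ (by exact_mod_cast h0)] at h1
  refine ⟨key, fun ht => key ?_⟩
  filter_upwards [ht.eventually (lt_mem_nhds (show (15 / 16 : ℝ) < 1 by norm_num))] with n hn
  exact not_lt.mpr hn.le

end Pool.Agent.Results.MP_d9ab47_co.PowerfulVersusStrong
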